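import Mathlib
import Pool.Agent.H.MP_e848aa_gt.A

set_option autoImplicit false

namespace Pool.Agent.H.MP_7d36bd_gt

open Set Filter Topology Pool.Agent.H.MP_e848aa_gt

variable {X K : Type}

def B (W : K → Set X) (D : X → Set X) (F : Finset X) (G : K) : Set X :=
  {s | s ∈ W G ∧ ∀ x ∈ F, x ∉ D s}

def Ds (W : K → Set X) (D : X → Set X) (E : Set X) : Prop :=
  ∀ y ∈ E, ∃ F G, y ∈ B W D F G ∧ ∀ x ∈ E, x ∈ B W D F G → x = y

def Lg (S : Set (Finset X)) : Prop := ∀ C : Set X, C.Countable → ∃ p ∈ S, ∀ x ∈ p, x ∉ C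

theorem key [Countable K] (W : K → Set X) {D : X → Set X} (hD : ∀ x, (D x).Countable) (k : ℕ) : ∀ S : Set (Finset X),
    (∀ p ∈ S, p.card ≤ k) → Lg S →
    ∃ A ⊆ S, A.Countable ∧ ∀ E, Ds W D E → ∃ p ∈ A, ∀ x ∈ p, x ∉ E := by
  classical
  induction k with
  | zero =>
    intro S h1 h2
    obtain ⟨p, hp, -⟩ := h2 ∅ countable_empty
    refine ⟨{p}, singleton_subset_iff.2 hp, countable_singleton _, fun E _ => ⟨p, rfl, ?_⟩⟩
    rw [Finset.card_eq_zero.1 (Nat.le_zero.1 (h1 p hp))]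
    simp
  | succ k ih =>
    intro S h1 h2
    have h3 : ∀ (F : Finset X) (G : K), ∃ (A : Set (Finset X)) (C : Set X), A ⊆ S ∧ A.Countable ∧
        C.Countable ∧ ∀ q ∈ S, ∀ y ∈ q, y ∈ B W D F G → (∀ x ∈ q, x ∉ C) → ∀ E, Ds W D E →
          ∃ p ∈ A, ∃ z ∈ p, z ∈ B W D F G ∧ ∀ x ∈ p, x ≠ z → x ∉ E := fun F G => by
      by_cases h : Lg {r | ∃ p ∈ S, ∃ z ∈ p, z ∈ B W D F G ∧ p.erase z = r}
      · obtain ⟨A, a1, a2, a3⟩ := ih _ (by
          rintro _ ⟨p, p1, z, z1, -, rfl⟩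
          have := h1 p p1
          rw [Finset.card_erase_of_mem z1]
          omega) h
        choose! p p1 p2 using a1
        refine ⟨p '' A, ∅, image_subset_iff.2 p1, a2.image _, countable_empty,
          fun _ _ _ _ _ _ E hE => ?_⟩
        obtain ⟨r, r1, r2⟩ := a3 E hE
        obtain ⟨z, z1, z2, z3⟩ := p2 r1
        exact ⟨_, mem_image_of_mem _ r1, z, z1, z2, fun x x1 x2 =>
          r2 x (z3 ▸ Finset.mem_erase.2 ⟨x2, x1⟩)⟩
      · simp only [Lg, not_forall] at h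
        obtain ⟨C, c1, c2⟩ := h
        exact ⟨∅, C, empty_subset _, countable_empty, c1, fun q q1 y y1 y2 h => absurd
          ⟨_, ⟨q, q1, y, y1, y2, rfl⟩, fun x hx => h x (Finset.mem_of_mem_erase hx)⟩ c2⟩
    choose A C a1 a2 a3 a4 using h3
    obtain ⟨H, H1, -, H3, -⟩ := hull (fun s : Finset X => (⋃ x ∈ s, D x) ∪
      ⋃ G, C s G ∪ ⋃ p ∈ A s G, (p : Set X)) fun s =>
        (s.countable_toSet.biUnion fun x _ => hD x).union (countable_iUnion fun G => (a3 s G).union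
            ((a2 s G).biUnion fun p _ => p.countable_toSet))
    have hM := H1 ∅ countable_empty
    obtain ⟨q, q1, q2⟩ := h2 _ hM
    refine ⟨insert q (⋃ F ∈ {F : Finset X | ↑F ⊆ H ∅}, ⋃ G, A F G),
      insert_subset q1 (iUnion₂_subset fun F _ => iUnion_subset fun G => a1 F G),
      ((cfin hM).biUnion fun F _ => countable_iUnion fun G => a2 F G).insert _, fun E hE => ?_⟩
    by_cases h : ∀ x ∈ q, x ∉ E
    · exact ⟨q, Or.inl rfl, h⟩
    push Not at h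
    obtain ⟨y, y1, y2⟩ := h
    obtain ⟨F, G, y3, y4⟩ := hE y y2
    have f1 : ↑(F.filter (· ∈ H ∅)) ⊆ H ∅ := fun x hx => (Finset.mem_filter.1 hx).2
    have h4 : C (F.filter (· ∈ H ∅)) G ∪ ⋃ p ∈ A (F.filter (· ∈ H ∅)) G, (p : Set X) ⊆ H ∅ :=
      fun x hx => H3 ∅ _ f1 (Or.inr (mem_iUnion.2 ⟨G, hx⟩))
    obtain ⟨p, p1, z, z1, z2, z3⟩ := a4 (F.filter (· ∈ H ∅)) G q q1 y y1
      ⟨y3.1, fun x hx => y3.2 x (Finset.mem_filter.1 hx).1⟩
      (fun x hx h => q2 x hx (h4 (Or.inl h))) E hE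
    have z4 : z ∈ H ∅ := h4 (Or.inr (mem_biUnion p1 z1))
    refine ⟨p, Or.inr (mem_biUnion f1 (mem_iUnion.2 ⟨G, p1⟩)), fun x hx h => ?_⟩
    obtain rfl : x = z := by_contra fun h5 => z3 x hx h5 h
    refine q2 y y1 (y4 x h ⟨z2.1, fun w w1 w2 =>
      z2.2 w (Finset.mem_filter.2 ⟨w1, H3 ∅ {x} (by simpa using z4) (Or.inl ?_)⟩) w2⟩ ▸ z4)
    exact mem_biUnion (Finset.mem_singleton_self x) w2

theorem cov [Countable K] (W : K → Set X) {D : X → Set X} (hD : ∀ x, (D x).Countable)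
    (hE : ∀ x, Ds W D (D x)) (s : Set X) (F : X → Finset X) (G : X → K)
    (h : ∀ t ∈ s, t ∈ B W D (F t) (G t)) :
    ∃ A ⊆ s, A.Countable ∧ s ⊆ ⋃ t ∈ A, B W D (F t) (G t) := by
  classical
  have h3 : ∀ (r : Finset X) (n : ℕ × K), ∃ (A C : Set X), A ⊆ s ∧ A.Countable ∧ C.Countable ∧
      ∀ t ∈ s, ((F t).card, G t) = n → (∀ x ∈ F t, x ∉ r → x ∉ C) → ∀ E, Ds W D E →
        ∃ a ∈ A, G a = G t ∧ ∀ x ∈ F a, x ∉ r → x ∉ E := fun r n => by
    by_cases h : Lg {p | ∃ t ∈ s, ((F t).card, G t) = n ∧ F t \ r = p}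
    · obtain ⟨A, a1, a2, a3⟩ := key W hD n.1 _ (by
        rintro _ ⟨t, -, rfl, rfl⟩
        exact Finset.card_le_card Finset.sdiff_subset) h
      rcases s.eq_empty_or_nonempty with rfl | ⟨t0, -⟩
      · exact ⟨∅, ∅, subset_rfl, countable_empty, countable_empty, by simp⟩
      have : Nonempty X := ⟨t0⟩
      choose! t t1 t2 t3 using a1
      refine ⟨t '' A, ∅, image_subset_iff.2 t1, a2.image _, countable_empty,
        fun _ _ h4 _ E hE => ?_⟩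
      obtain ⟨p, p1, p2⟩ := a3 E hE
      exact ⟨_, mem_image_of_mem _ p1, congrArg Prod.snd ((t2 p1).trans h4.symm),
        fun x x1 x2 => p2 x (t3 p1 ▸ Finset.mem_sdiff.2 ⟨x1, x2⟩)⟩
    · simp only [Lg, not_forall] at h
      obtain ⟨C, c1, c2⟩ := h
      exact ⟨∅, C, empty_subset _, countable_empty, c1, fun t t1 t2 h => absurd
        ⟨_, ⟨t, t1, t2, rfl⟩, fun x hx => h x (Finset.mem_sdiff.1 hx).1 (Finset.mem_sdiff.1 hx).2⟩ c2⟩
  choose A C a1 a2 a3 a4 using h3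
  obtain ⟨H, H1, -, H3, -⟩ := hull (fun r : Finset X => ⋃ n, C r n) fun r => countable_iUnion (a3 r)
  refine ⟨⋃ r ∈ {F : Finset X | ↑F ⊆ H ∅}, ⋃ n, A r n,
    iUnion₂_subset fun r _ => iUnion_subset (a1 r),
    (cfin (H1 ∅ countable_empty)).biUnion fun r _ => countable_iUnion (a2 r), fun t ht => ?_⟩
  have f1 : ↑((F t).filter (· ∈ H ∅)) ⊆ H ∅ := fun x hx => (Finset.mem_filter.1 hx).2
  obtain ⟨a, c1, c2, c3⟩ := a4 _ _ t ht rfl (fun x x1 x2 x3 => x2 (Finset.mem_filter.2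
    ⟨x1, H3 ∅ _ f1 (mem_iUnion.2 ⟨_, x3⟩)⟩)) _ (hE t)
  refine mem_biUnion (mem_biUnion f1 (mem_iUnion.2 ⟨_, c1⟩)) ⟨c2 ▸ (h t ht).1, fun x hx => ?_⟩
  by_cases h5 : x ∈ (F t).filter (· ∈ H ∅)
  · exact (h t ht).2 x (Finset.mem_filter.1 h5).1
  · exact c3 x hx h5

inductive T : Type
  | leaf : T
  | node (f : ℕ → T) : T

def e : T → List ℕ → Bool
  | T.leaf, _ => false
  | T.node _, [] => true
  | T.node f, n :: l => e (f n) l

theorem einj (s : T) : ∀ t, e s = e t → s = t := by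
  induction s with
  | leaf =>
    rintro (_ | g) h
    · rfl
    · simpa [e] using congrFun h []
  | node f ih =>
    rintro (_ | g) h
    · simpa [e] using congrFun h []
    · exact congrArg T.node (funext fun n => ih n _ (funext fun l => congrFun h (n :: l)))

def W (G : Finset (List ℕ × Bool)) : Set T := {t | ∀ c ∈ G, e t c.1 = c.2}

def dsc (f : ℕ → T) (g : ℕ → Set T) : Prop := ∀ n, ∃ (F : Finset T) (G : Finset (List ℕ × Bool)),
  (f n ∈ W G ∧ ∀ x ∈ F, x ∉ g n) ∧ ∀ m, (f m ∈ W G ∧ ∀ x ∈ F, x ∉ g m) → f m = f n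

def D : T → Set T
  | T.leaf => ∅
  | T.node f => {x | x ∈ range f ∧ dsc f fun n => D (f n)}

theorem ne (t : T) : ∀ f n, t = T.node f → f n ≠ t := by
  induction t with
  | leaf => intro f n h; cases h
  | node g ih =>
    intro f n h h1
    obtain rfl : g = f := T.node.inj h
    exact ih n g n h1 rfl

theorem d1 (t : T) : t ∉ D t := by
  cases t with
  | leaf => exact id
  | node f => exact fun ⟨⟨n, h⟩, _⟩ => ne _ f n rfl h

theorem d2 (t : T) : (D t).Countable := by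
  cases t with
  | leaf => exact countable_empty
  | node f => exact (countable_range f).mono fun _ h => h.1

theorem d3 (t : T) : Ds W D (D t) := by
  cases t with
  | leaf => exact fun _ h => h.elim
  | node f =>
    rintro _ ⟨⟨n, rfl⟩, h⟩
    obtain ⟨F, G, h1, h2⟩ := h n
    refine ⟨F, G, h1, ?_⟩
    rintro _ ⟨⟨m, rfl⟩, -⟩ h3
    exact h2 m h3

theorem d4 {E : Set T} (h1 : E.Countable) (h2 : Ds W D E) : ∃ t, E ⊆ D t := by
  rcases E.eq_empty_or_nonempty with rfl | h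
  · exact ⟨T.leaf, empty_subset _⟩
  obtain ⟨f, rfl⟩ := h1.exists_eq_range h
  refine ⟨T.node f, fun x hx => ⟨hx, fun n => ?_⟩⟩
  obtain ⟨F, G, h3, h4⟩ := h2 _ ⟨n, rfl⟩
  exact ⟨F, G, h3, fun m h5 => h4 _ ⟨m, rfl⟩ h5⟩

open Classical in
instance : TopologicalSpace T where
  IsOpen U := ∀ t ∈ U, ∃ F G, t ∈ B W D F G ∧ B W D F G ⊆ U
  isOpen_univ _ _ := ⟨∅, ∅, by simp [B, W], subset_univ _⟩
  isOpen_inter U V hU hV t ht := by
    obtain ⟨F, G, h1, h2⟩ := hU t ht.1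
    obtain ⟨F', G', h3, h4⟩ := hV t ht.2
    have : B W D (F ∪ F') (G ∪ G') = B W D F G ∩ B W D F' G' := by
      ext; simp only [B, W, mem_ofPred_eq, Finset.mem_union, mem_inter_iff]; grind
    exact ⟨F ∪ F', G ∪ G', this ▸ ⟨h1, h3⟩, this ▸ inter_subset_inter h2 h4⟩
  isOpen_sUnion S h t := fun ⟨U, h1, h2⟩ =>
    let ⟨F, G, h3, h4⟩ := h U h1 t h2
    ⟨F, G, h3, h4.trans (subset_sUnion_of_mem h1)⟩

theorem op {U : Set T} : IsOpen U ↔ ∀ t ∈ U, ∃ F G, t ∈ B W D F G ∧ B W D F G ⊆ U := Iff.rfl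

theorem hl : HereditarilyLindelofSpace T := by
  refine ⟨fun s _ => isLindelof_of_countable_subcover fun {ι} U hU hs => ?_⟩
  have h : ∀ t, ∃ F G, t ∈ s → t ∈ B W D F G ∧ ∃ i, B W D F G ⊆ U i := fun t => by
    by_cases h : t ∈ s
    · obtain ⟨i, hi⟩ := mem_iUnion.1 (hs h)
      obtain ⟨F, G, h1, h2⟩ := op.1 (hU i) t hi
      exact ⟨F, G, fun _ => ⟨h1, i, h2⟩⟩
    · exact ⟨∅, ∅, fun h1 => absurd h1 h⟩
  choose F G h using h
  choose h1 i h2 using h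
  obtain ⟨A, a1, a2, a3⟩ := cov W d2 d3 s F G h1
  have := a2.to_subtype
  refine ⟨range fun a : A => i a (a1 a.2), countable_range _, fun t ht => ?_⟩
  obtain ⟨a, b1, b2⟩ := mem_iUnion₂.1 (a3 ht)
  exact mem_biUnion (mem_range_self ⟨a, b1⟩) (h2 a (a1 b1) b2)

theorem o (F : Finset T) (G : Finset (List ℕ × Bool)) : IsOpen (B W D F G) :=
  op.2 fun _ ht => ⟨F, G, ht, subset_rfl⟩

theorem ce : Continuous e := continuous_pi fun l => continuous_discrete_rng.2 fun b => by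
  have : (fun t => e t l) ⁻¹' {b} = B W D ∅ {(l, b)} := by ext; simp [B, W]
  rw [this]; exact o _ _

theorem main : ∃ U : T → Set T, (∀ x, IsOpen (U x) ∧ x ∈ U x) ∧
    ∀ E : Set T, DiscreteTopology E → (⋃ x ∈ E, U x) ≠ Set.univ := by
  refine ⟨fun x => B W D {x} ∅, fun x => ⟨o _ _, by simpa [B, W] using d1 x⟩, fun E e1 e2 => ?_⟩
  obtain ⟨t, ht⟩ := d4 ((hl.isLindelof E).countable e1) fun y hy => by
    obtain ⟨V, v1, v2⟩ := isOpen_induced_iff.1 (isOpen_discrete ({⟨y, hy⟩} : Set E))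
    obtain ⟨F, G, h1, h2⟩ := op.1 v1 y (show (⟨y, hy⟩ : E) ∈ Subtype.val ⁻¹' V by rw [v2]; rfl)
    exact ⟨F, G, h1, fun x x1 x2 => congrArg Subtype.val
      (show (⟨x, x1⟩ : E) ∈ ({⟨y, hy⟩} : Set E) from v2 ▸ h2 x2)⟩
  obtain ⟨x, x1, x2⟩ := mem_iUnion₂.1 (e2 ▸ mem_univ t : t ∈ ⋃ x ∈ E, B W D {x} ∅)
  exact x2.2 x (Finset.mem_singleton_self x) (ht x1)

instance : T2Space T := T2Space.of_injective_continuous einj ce

end Pool.Agent.H.MP_7d36bd_gt
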